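import Mathlib

/-!
# Twists of level-one cusp forms by real Dirichlet characters: the basic transformation law
-/

set_option autoImplicit false

open UpperHalfPlane hiding I
open Complex Filter Topology Set MeasureTheory Asymptotics ModularForm
open scoped Real MatrixGroups

namespace Pool.Agent.V1143.Holo

variable {k : ℤ} (f : CuspForm 𝒮ℒ k)

/-- the point `(b + i t) / q` -/
noncomputable def pt (q : ℕ) (b : ℤ) (t : ℝ) : ℂ := ((b : ℂ) + t * I) / q

lemma pt_im {q : ℕ} (b : ℤ) (t : ℝ) : (pt q b t).im = t / q := by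
  unfold pt
  rw [show ((b : ℂ) + t * I) / q = (((b : ℝ) : ℂ) + (t : ℂ) * I) / ((q : ℝ) : ℂ) by push_cast; rfl]
  rw [div_ofReal_im]
  simp

lemma pt_im_pos {q : ℕ} (hq : 0 < q) (b : ℤ) {t : ℝ} (ht : 0 < t) : 0 < (pt q b t).im := by
  rw [pt_im]
  have : (0:ℝ) < q := by exact_mod_cast hq
  positivity

/-- `f ((b + i t) / q)` -/
noncomputable def fv (q : ℕ) (b : ℤ) (t : ℝ) : ℂ := f (ofComplex (pt q b t))

lemma slash_SL (g : SL(2, ℤ)) (z : ℍ) :
    f (g • z) = (((g 1 0 : ℤ) : ℂ) * z + ((g 1 1 : ℤ) : ℂ)) ^ k * f z := by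
  have h := SlashInvariantForm.slash_action_eqn'' (Γ := 𝒮ℒ) f
    (γ := (Matrix.SpecialLinearGroup.mapGL ℝ g : GL (Fin 2) ℝ)) (MonoidHom.mem_range.mpr ⟨g, rfl⟩) z
  have e : g • z = (Matrix.SpecialLinearGroup.mapGL ℝ g : GL (Fin 2) ℝ) • z := rfl
  rw [e, h]
  simp [denom]

lemma fv_fe {q : ℕ} (hq : 0 < q) {b d e : ℤ} (h : b * d + 1 = q * e) {t : ℝ} (ht : 0 < t) :
    fv f q b t = (-I / t) ^ k * fv f q d (1 / t) := by
  have hq' : (q : ℂ) ≠ 0 := by exact_mod_cast hq.ne'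
  have ht' : (t : ℂ) ≠ 0 := by exact_mod_cast ht.ne'
  have ht1 : 0 < 1 / t := by positivity
  unfold fv
  rw [ofComplex_apply_of_im_pos (pt_im_pos hq b ht), ofComplex_apply_of_im_pos (pt_im_pos hq d ht1)]
  set w : ℍ := ⟨pt q d (1 / t), pt_im_pos hq d ht1⟩ with hw
  have hdet : (!![-b, e; -(q : ℤ), d] : Matrix (Fin 2) (Fin 2) ℤ).det = 1 := by
    rw [Matrix.det_fin_two_of]; linarith
  set g : SL(2, ℤ) := ⟨!![-b, e; -(q : ℤ), d], hdet⟩ with hg
  have hden : (((g 1 0 : ℤ) : ℂ) * w + ((g 1 1 : ℤ) : ℂ)) = -I / t := by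
    simp only [hg, hw, pt]
    simp
    field_simp
    ring
  have key : g • w = ⟨pt q b t, pt_im_pos hq b ht⟩ := by
    apply UpperHalfPlane.ext
    rw [coe_specialLinearGroup_apply]
    have hb : (b : ℂ) * d + 1 = q * e := by exact_mod_cast h
    have h1 : ((algebraMap ℤ ℝ (g 1 0) : ℂ) * w + (algebraMap ℤ ℝ (g 1 1) : ℂ)) = -I / t := by
      rw [← hden]; simp
    rw [h1]
    simp only [hg, hw, pt]
    simp
    field_simp
    ring_nf
    rw [I_sq]
    linear_combination (t : ℂ) * hb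
  rw [← key, slash_SL, hden]

lemma fv_periodic {q : ℕ} (hq : 0 < q) (b m : ℤ) {t : ℝ} (ht : 0 < t) :
    fv f q (b + q * m) t = fv f q b t := by
  have hq' : (q : ℂ) ≠ 0 := by exact_mod_cast hq.ne'
  unfold fv
  rw [ofComplex_apply_of_im_pos (pt_im_pos hq _ ht), ofComplex_apply_of_im_pos (pt_im_pos hq b ht)]
  set w : ℍ := ⟨pt q b t, pt_im_pos hq b ht⟩ with hw
  have hdet : (!![1, m; 0, 1] : Matrix (Fin 2) (Fin 2) ℤ).det = 1 := by
    rw [Matrix.det_fin_two_of]; ring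
  set g : SL(2, ℤ) := ⟨!![1, m; 0, 1], hdet⟩ with hg
  have key : g • w = ⟨pt q (b + q * m) t, pt_im_pos hq _ ht⟩ := by
    apply UpperHalfPlane.ext
    rw [coe_specialLinearGroup_apply]
    simp only [hg, hw, pt]
    simp
    field_simp
    ring
  rw [← key, slash_SL]
  simp [hg]

lemma fv_congr {q : ℕ} (hq : 0 < q) {b c : ℤ} (h : (b : ZMod q) = (c : ZMod q)) {t : ℝ}
    (ht : 0 < t) : fv f q b t = fv f q c t := by
  rw [ZMod.intCast_eq_intCast_iff_dvd_sub] at h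
  obtain ⟨m, hm⟩ := h
  have : c = b + q * m := by linarith
  rw [this, fv_periodic f hq b m ht]

variable {q : ℕ} [NeZero q]

/-- the twisted function on the positive axis -/
noncomputable def G (χ : DirichletCharacter ℂ q) (t : ℝ) : ℂ :=
  ∑ b : ZMod q, χ b * fv f q (b.val : ℤ) t

lemma sum_units {M : Type*} [AddCommMonoid M] (F : ZMod q → M) (hF : ∀ b, ¬ IsUnit b → F b = 0) :
    ∑ b : ZMod q, F b = ∑ u : (ZMod q)ˣ, F u := by
  classical
  symm
  refine Finset.sum_bij_ne_zero (fun u _ _ => (u : ZMod q)) ?_ ?_ ?_ ?_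
  · intro u _ _; exact Finset.mem_univ _
  · intro u _ _ v _ _ h; exact Units.ext h
  · intro b _ hb
    by_cases h : IsUnit b
    · obtain ⟨u, rfl⟩ := h
      exact ⟨u, Finset.mem_univ _, hb, rfl⟩
    · exact absurd (hF b h) hb
  · intro u _ _; rfl

/-- the functional equation -/
lemma G_fe (χ : DirichletCharacter ℂ q) (hχ : χ⁻¹ = χ) {t : ℝ} (ht : 0 < t) :
    G f χ t = χ (-1) * (-I / t) ^ k * G f χ (1 / t) := by
  have hq : 0 < q := Nat.pos_of_ne_zero (NeZero.ne q)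
  have ht1 : 0 < 1 / t := by positivity
  unfold G
  rw [sum_units (fun b : ZMod q => χ b * fv f q (b.val : ℤ) t)
      (fun b hb => by rw [MulChar.map_nonunit _ hb, zero_mul]),
    sum_units (fun b : ZMod q => χ b * fv f q (b.val : ℤ) (1 / t))
      (fun b hb => by rw [MulChar.map_nonunit _ hb, zero_mul]), Finset.mul_sum]
  refine Fintype.sum_equiv ((Equiv.neg (ZMod q)ˣ).trans (Equiv.inv (ZMod q)ˣ)) _ _ ?_
  intro u
  simp only [Equiv.trans_apply, Equiv.neg_apply, Equiv.inv_apply]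
  set v : (ZMod q)ˣ := (-u)⁻¹ with hv
  have huv : (u : ZMod q) * (v : ZMod q) = -1 := by
    have : (-u) * v = 1 := by rw [hv]; exact mul_inv_cancel _
    have h2 : ((-u : (ZMod q)ˣ) : ZMod q) * (v : ZMod q) = 1 := by
      rw [← Units.val_mul, this]; rfl
    rw [Units.val_neg] at h2
    linear_combination -h2
  have hdvd : ∃ e : ℤ, ((u : ZMod q).val : ℤ) * ((v : ZMod q).val : ℤ) + 1 = q * e := by
    have : ((((u : ZMod q).val : ℤ) * ((v : ZMod q).val : ℤ) + 1 : ℤ) : ZMod q) = 0 := by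
      push_cast
      rw [ZMod.natCast_zmod_val, ZMod.natCast_zmod_val, huv]; ring
    rw [ZMod.intCast_zmod_eq_zero_iff_dvd] at this
    obtain ⟨e, he⟩ := this
    exact ⟨e, he⟩
  obtain ⟨e, he⟩ := hdvd
  rw [fv_fe f hq he ht]
  have hχv : χ (u : ZMod q) = χ (-1) * χ (v : ZMod q) := by
    have h1 : χ (u : ZMod q) * χ (v : ZMod q) = χ (-1) := by rw [← map_mul, huv]
    have h2 : χ (v : ZMod q) * χ (v : ZMod q) = 1 := by
      have h3 : χ⁻¹ (v : ZMod q) * χ (v : ZMod q) = 1 := by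
        rw [← MulChar.mul_apply, inv_mul_cancel, MulChar.one_apply_coe]
      rwa [hχ] at h3
    calc χ (u : ZMod q) = χ (u : ZMod q) * (χ (v : ZMod q) * χ (v : ZMod q)) := by rw [h2, mul_one]
      _ = _ := by rw [← mul_assoc, h1]
  rw [hχv]
  ring

end Pool.Agent.V1143.Holo
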