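import Pool.Agent.V1143.Holo.Mellin

/-!
# Hecke operators of prime index on level-one cusp forms, and the Hecke relations for `Δ`
-/

set_option autoImplicit false

open UpperHalfPlane hiding I
open Complex Filter Topology Set MeasureTheory Asymptotics ModularForm
open scoped Real MatrixGroups Manifold

namespace Pool.Agent.V1143.Holo

variable {k : ℤ} (f : CuspForm 𝒮ℒ k)

/-- extension of `f` to `ℂ` -/
noncomputable def Fc (z : ℂ) : ℂ := f (ofComplex z)

lemma Fc_coe (τ : ℍ) : Fc f τ = f τ := by unfold Fc; rw [ofComplex_apply]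

lemma Fc_act {a b c d : ℤ} (hdet : a * d - b * c = 1) {z w : ℂ} (hz : 0 < z.im) (hw : 0 < w.im)
    (h : w * (c * z + d) = a * z + b) : Fc f w = ((c : ℂ) * z + d) ^ k * Fc f z := by
  unfold Fc
  rw [ofComplex_apply_of_im_pos hz, ofComplex_apply_of_im_pos hw]
  set z' : ℍ := ⟨z, hz⟩ with hz'
  have hdet : (!![a, b; c, d] : Matrix (Fin 2) (Fin 2) ℤ).det = 1 := by
    rw [Matrix.det_fin_two_of]; linarith
  set g : SL(2, ℤ) := ⟨!![a, b; c, d], hdet⟩ with hg
  have hne : ((c : ℂ) * z + d) ≠ 0 := by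
    have := denom_ne_zero (Matrix.SpecialLinearGroup.mapGL ℝ g : GL (Fin 2) ℝ) z'
    simpa [denom, hg, hz'] using this
  have key : g • z' = ⟨w, hw⟩ := by
    apply UpperHalfPlane.ext
    rw [coe_specialLinearGroup_apply]
    simp only [hg, hz']
    simp
    rw [div_eq_iff hne, ← h]
  rw [← key, slash_SL]
  simp [hg, hz']

lemma Fc_diff : DifferentiableOn ℂ (Fc f) {z | 0 < z.im} :=
  UpperHalfPlane.mdifferentiable_iff.mp (CuspFormClass.holo f)

lemma im_mul_nat {p : ℕ} (hp : 0 < p) {z : ℂ} (hz : 0 < z.im) : 0 < ((p : ℂ) * z).im := by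
  have : (0:ℝ) < p := by exact_mod_cast hp
  rw [show ((p : ℂ) * z) = ((p : ℝ) : ℂ) * z by push_cast; rfl, im_ofReal_mul]
  positivity

lemma im_div_nat {p : ℕ} (hp : 0 < p) (b : ℤ) {z : ℂ} (hz : 0 < z.im) :
    0 < ((z + b) / p : ℂ).im := by
  have : (0:ℝ) < p := by exact_mod_cast hp
  rw [show ((z + b) / p : ℂ) = (z + ((b : ℝ) : ℂ)) / ((p : ℝ) : ℂ) by push_cast; rfl,
    div_ofReal_im]
  simp only [add_im, ofReal_im, add_zero]
  positivity

lemma Fc_congr {p : ℕ} (hp : 0 < p) {b c : ℤ} (h : (b : ZMod p) = (c : ZMod p)) {z : ℂ}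
    (hz : 0 < z.im) : Fc f ((z + b) / p) = Fc f ((z + c) / p) := by
  rw [ZMod.intCast_eq_intCast_iff_dvd_sub] at h
  obtain ⟨m, hm⟩ := h
  have hc : c = b + p * m := by linarith
  have hp' : (p : ℂ) ≠ 0 := by exact_mod_cast hp.ne'
  have h1 := Fc_act f (a := 1) (b := m) (c := 0) (d := 1) (by ring) (im_div_nat hp b hz)
    (im_div_nat hp c hz) (by rw [hc]; push_cast; field_simp; ring)
  rw [h1]; simp

variable {p : ℕ} [Fact p.Prime]

/-- the Hecke operator on functions -/
noncomputable def heckeFun (p : ℕ) [Fact p.Prime] (f : CuspForm 𝒮ℒ k) (z : ℂ) : ℂ :=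
  (p : ℂ) ^ (k - 1) * Fc f (p * z) + (p : ℂ)⁻¹ * ∑ b : ZMod p, Fc f ((z + (b.val : ℤ)) / p)

lemma pos_p (p : ℕ) [Fact p.Prime] : 0 < p := (Fact.out : p.Prime).pos

lemma ne_p (p : ℕ) [Fact p.Prime] : (p : ℂ) ≠ 0 := by exact_mod_cast (pos_p p).ne'

lemma hecke_T {z : ℂ} (hz : 0 < z.im) : heckeFun p f (z + 1) = heckeFun p f z := by
  have hp := pos_p p
  have hp' := ne_p p
  have hz1 : 0 < (z + 1).im := by simpa using hz
  unfold heckeFun
  congr 1
  · congr 1
    have h1 := Fc_act f (a := 1) (b := p) (c := 0) (d := 1) (by ring) (im_mul_nat hp hz)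
      (im_mul_nat hp hz1) (by push_cast; ring)
    rw [h1]; simp
  · congr 1
    refine Fintype.sum_equiv (Equiv.addRight (1 : ZMod p)) _ _ fun b => ?_
    have e : z + 1 + ((b.val : ℤ) : ℂ) = z + (((b.val : ℤ) + 1 : ℤ) : ℂ) := by push_cast; ring
    rw [e]
    apply Fc_congr f hp _ hz
    simp

lemma hecke_S {z : ℂ} (hz : 0 < z.im) : heckeFun p f (-1 / z) = z ^ k * heckeFun p f z := by
  have hp := pos_p p
  have hp' := ne_p p
  have hz0 : z ≠ 0 := by rintro rfl; simp at hz
  have hz1 : 0 < (-1 / z).im := by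
    have := UpperHalfPlane.im_inv_neg_coe_pos ⟨z, hz⟩
    rw [show -1 / z = (-z)⁻¹ by field_simp]
    exact this
  -- the individual pieces
  have hA : Fc f (p * (-1 / z)) = (z / p) ^ k * Fc f ((z + ((0 : ZMod p).val : ℤ)) / p) := by
    have h1 := Fc_act f (a := 0) (b := -1) (c := 1) (d := 0) (by ring)
      (im_div_nat hp 0 hz) (im_mul_nat hp hz1) (by push_cast; field_simp; ring)
    rw [h1]
    simp
  have hB : Fc f ((-1 / z + ((0 : ZMod p).val : ℤ)) / p) = (p * z) ^ k * Fc f (p * z) := by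
    have h1 := Fc_act f (a := 0) (b := -1) (c := 1) (d := 0) (by ring)
      (im_mul_nat hp hz) (im_div_nat hp 0 hz1) (by push_cast; field_simp; ring)
    simpa using h1
  have hC : ∀ u : (ZMod p)ˣ, Fc f ((-1 / z + (((u : ZMod p).val : ℤ) : ℂ)) / p) =
      z ^ k * Fc f ((z + ((((-u)⁻¹ : (ZMod p)ˣ) : ZMod p).val : ℤ)) / p) := by
    intro u
    set v : (ZMod p)ˣ := (-u)⁻¹ with hv
    have huv : (u : ZMod p) * (v : ZMod p) = -1 := by
      have : (-u) * v = 1 := by rw [hv]; exact mul_inv_cancel _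
      have h2 : ((-u : (ZMod p)ˣ) : ZMod p) * (v : ZMod p) = 1 := by
        rw [← Units.val_mul, this]; rfl
      rw [Units.val_neg] at h2
      linear_combination -h2
    have hdvd : ∃ e : ℤ, ((u : ZMod p).val : ℤ) * ((v : ZMod p).val : ℤ) + 1 = p * e := by
      have : ((((u : ZMod p).val : ℤ) * ((v : ZMod p).val : ℤ) + 1 : ℤ) : ZMod p) = 0 := by
        push_cast
        rw [ZMod.natCast_zmod_val, ZMod.natCast_zmod_val, huv]; ring
      rw [ZMod.intCast_zmod_eq_zero_iff_dvd] at this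
      obtain ⟨e, he⟩ := this
      exact ⟨e, he⟩
    obtain ⟨e, he⟩ := hdvd
    have heC : (((u : ZMod p).val : ℤ) : ℂ) * (((v : ZMod p).val : ℤ) : ℂ) + 1 = p * e := by
      exact_mod_cast he
    generalize ((u : ZMod p).val : ℤ) = b at *
    generalize ((v : ZMod p).val : ℤ) = d at *
    have h1 := Fc_act f (a := b) (b := -e) (c := p) (d := -d) (by linarith)
      (im_div_nat hp d hz) (im_div_nat hp b hz1)
      (by push_cast; field_simp; linear_combination (-z) * heC)
    rw [h1]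
    congr 2
    push_cast
    field_simp
    ring
  have split : ∀ g : ZMod p → ℂ, ∑ b : ZMod p, g b = g 0 + ∑ u : (ZMod p)ˣ, g u := by
    intro g
    have h1 : ∑ b : ZMod p, g b = ∑ b : ZMod p, ((if b = 0 then g 0 else 0) +
        (if b = 0 then 0 else g b)) := by
      refine Finset.sum_congr rfl fun b _ => ?_
      by_cases h : b = 0 <;> simp [h]
    rw [h1, Finset.sum_add_distrib, Finset.sum_ite_eq' Finset.univ (0 : ZMod p)]
    rw [sum_units (q := p) (fun b : ZMod p => if b = 0 then 0 else g b)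
      (fun b hb => by
        have : b = 0 := by by_contra h; exact hb (isUnit_iff_ne_zero.mpr h)
        simp [this])]
    simp
  unfold heckeFun
  rw [split, split (fun b => Fc f ((z + ((b.val : ℤ) : ℂ)) / p)), hA, hB]
  have hsum : ∑ u : (ZMod p)ˣ, Fc f ((-1 / z + (((u : ZMod p).val : ℤ) : ℂ)) / p) =
      z ^ k * ∑ u : (ZMod p)ˣ, Fc f ((z + (((u : ZMod p).val : ℤ) : ℂ)) / p) := by
    rw [Finset.mul_sum]
    refine Fintype.sum_equiv ((Equiv.neg (ZMod p)ˣ).trans (Equiv.inv (ZMod p)ˣ)) _ _ ?_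
    intro u
    rw [hC u]
    rfl
  rw [hsum, div_zpow, mul_zpow, zpow_sub_one₀ hp']
  field_simp
  ring

lemma heckeFun_diff : DifferentiableOn ℂ (heckeFun p f) {z | 0 < z.im} := by
  have hp := pos_p p
  have h1 : DifferentiableOn ℂ (fun z : ℂ => Fc f (p * z)) {z | 0 < z.im} :=
    (Fc_diff f).comp (by fun_prop) (fun z hz => im_mul_nat hp hz)
  have h2 : ∀ b : ℤ, DifferentiableOn ℂ (fun z : ℂ => Fc f ((z + b) / p)) {z | 0 < z.im} :=
    fun b => (Fc_diff f).comp (by fun_prop) (fun z hz => im_div_nat hp b hz)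
  unfold heckeFun
  exact (h1.const_mul _).add ((DifferentiableOn.fun_sum fun b _ => h2 _).const_mul _)

lemma tendsto_mul_nat : Tendsto (fun τ : ℍ => ofComplex (p * (τ : ℂ))) atImInfty atImInfty := by
  have hp := pos_p p
  have hp' : (0:ℝ) < p := by exact_mod_cast hp
  rw [atImInfty, tendsto_comap_iff]
  have h : Tendsto (fun τ : ℍ => (p : ℝ) * τ.im) (comap UpperHalfPlane.im atTop) atTop :=
    tendsto_comap.const_mul_atTop hp'
  refine h.congr fun τ => ?_
  rw [Function.comp_apply, ofComplex_apply_of_im_pos (im_mul_nat hp τ.im_pos)]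
  change _ = ((p : ℂ) * τ).im
  rw [show ((p : ℂ) * τ) = ((p : ℝ) : ℂ) * τ by push_cast; rfl, im_ofReal_mul]
  rfl

lemma tendsto_div_nat (b : ℤ) :
    Tendsto (fun τ : ℍ => ofComplex (((τ : ℂ) + b) / p)) atImInfty atImInfty := by
  have hp := pos_p p
  have hp' : (0:ℝ) < p := by exact_mod_cast hp
  rw [atImInfty, tendsto_comap_iff]
  have h : Tendsto (fun τ : ℍ => τ.im / (p : ℝ)) (comap UpperHalfPlane.im atTop) atTop :=
    tendsto_comap.atTop_div_const hp'
  refine h.congr fun τ => ?_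
  rw [Function.comp_apply, ofComplex_apply_of_im_pos (im_div_nat hp b τ.im_pos)]
  change _ = (((τ : ℂ) + b) / p).im
  rw [show (((τ : ℂ) + b) / p : ℂ) = ((τ : ℂ) + ((b : ℝ) : ℂ)) / ((p : ℝ) : ℂ) by push_cast; rfl,
    div_ofReal_im]
  simp

lemma heckeFun_zero : IsZeroAtImInfty (fun τ : ℍ => heckeFun p f τ) := by
  have h0 : Tendsto f atImInfty (𝓝 0) := CuspFormClass.zero_at_infty f
  have h1 : Tendsto (fun τ : ℍ => Fc f (p * (τ : ℂ))) atImInfty (𝓝 0) :=
    h0.comp tendsto_mul_nat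
  have h2 : ∀ b : ℤ, Tendsto (fun τ : ℍ => Fc f (((τ : ℂ) + b) / p)) atImInfty (𝓝 0) :=
    fun b => h0.comp (tendsto_div_nat b)
  have h3 := (h1.const_mul ((p : ℂ) ^ (k - 1))).add
    ((tendsto_finsetSum (Finset.univ : Finset (ZMod p)) fun b _ => h2 (b.val : ℤ)).const_mul
      ((p : ℂ)⁻¹))
  simp only [mul_zero, Finset.sum_const_zero, add_zero] at h3
  exact h3

lemma heckeFun_slash (γ : SL(2, ℤ)) :
    (fun τ : ℍ => heckeFun p f τ) ∣[k] γ = (fun τ : ℍ => heckeFun p f τ) := by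
  refine SlashInvariantForm.slash_action_generators_SL2Z ?_ ?_ γ
  · ext τ
    rw [SlashInvariantForm.slash_S_apply]
    have h := hecke_S (p := p) f τ.im_pos
    have e : ((.mk _ τ.im_inv_neg_coe_pos : ℍ) : ℂ) = -1 / (τ : ℂ) := by
      change (-(τ : ℂ))⁻¹ = _
      rw [inv_neg, neg_div, one_div]
    rw [e, h, mul_comm, ← mul_assoc, ← zpow_add₀ τ.ne_zero]
    simp
  · ext τ
    rw [ModularForm.SL_slash_apply, UpperHalfPlane.modular_T_smul]
    have h := hecke_T (p := p) f τ.im_pos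
    simp [denom, ModularGroup.T]
    rw [add_comm]
    exact h

/-- the Hecke operator on cusp forms -/
noncomputable def hecke (p : ℕ) [Fact p.Prime] (f : CuspForm 𝒮ℒ k) : CuspForm 𝒮ℒ k where
  toFun := fun τ : ℍ => heckeFun p f τ
  slash_action_eq' A hA := by
    obtain ⟨A, rfl⟩ := hA
    exact heckeFun_slash f A
  holo' := by
    rw [UpperHalfPlane.mdifferentiable_iff]
    refine (heckeFun_diff (p := p) f).congr fun z hz => ?_
    simp [ofComplex_apply_of_im_pos hz]
  zero_at_cusps' hc := by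
    rw [Subgroup.IsArithmetic.isCusp_iff_isCusp_SL2Z] at hc
    rw [OnePoint.isZeroAt_iff_forall_SL2Z hc]
    intro γ _
    rw [heckeFun_slash]
    exact heckeFun_zero f

lemma hasSum_Fc {z : ℂ} (hz : 0 < z.im) :
    HasSum (fun n : ℕ => cf f n * cexp (2 * π * I * (n * z))) (Fc f z) := by
  have h := ModularForm.hasSum_qExpansion f one_pos one_mem_strictPeriods_SL (⟨z, hz⟩ : ℍ)
  have e : ∀ n : ℕ, cf f n * cexp (2 * π * I * (n * z)) = (qExpansion 1 f).coeff n *
        Function.Periodic.qParam 1 z ^ n := by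
    intro n
    rw [Function.Periodic.qParam, ← Complex.exp_nat_mul]
    unfold cf
    congr 2
    push_cast
    ring
  simp_rw [e]
  unfold Fc
  rw [ofComplex_apply_of_im_pos hz]
  exact h

/-- coefficients of `T_p f` -/
noncomputable def hc (p : ℕ) (f : CuspForm 𝒮ℒ k) (n : ℕ) : ℂ :=
  cf f (p * n) + if p ∣ n then (p : ℂ) ^ (k - 1) * cf f (n / p) else 0

lemma hasSum_mul_nat {z : ℂ} (hz : 0 < z.im) :
    HasSum (fun n : ℕ => (if p ∣ n then (p : ℂ) ^ (k - 1) * cf f (n / p) else 0) *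
      cexp (2 * π * I * (n * z))) ((p : ℂ) ^ (k - 1) * Fc f (p * z)) := by
  have hp := pos_p p
  have h := (hasSum_Fc f (im_mul_nat hp hz)).mul_left ((p : ℂ) ^ (k - 1))
  have hinj : Function.Injective (fun m : ℕ => p * m) := fun a b h => Nat.eq_of_mul_eq_mul_left hp h
  rw [← hinj.hasSum_iff]
  · have e : ((fun n : ℕ => (if p ∣ n then (p : ℂ) ^ (k - 1) * cf f (n / p) else 0) *
      cexp (2 * π * I * (n * z))) ∘ (fun m : ℕ => p * m)) =
      fun m : ℕ => (p : ℂ) ^ (k - 1) * (cf f m * cexp (2 * π * I * (m * (p * z)))) := by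
      funext m
      simp only [Function.comp_apply]
      rw [if_pos (Dvd.intro m rfl), Nat.mul_div_cancel_left m hp, mul_assoc]
      congr 3
      push_cast
      ring
    rw [e]
    exact h
  · intro x hx
    rw [if_neg, zero_mul]
    rintro ⟨m, rfl⟩
    exact hx ⟨m, rfl⟩

lemma sum_exp_p (n : ℕ) :
    ∑ b : ZMod p, ZMod.stdAddChar (((n : ℤ) : ZMod p) * b) = if p ∣ n then (p : ℂ) else 0 := by
  classical
  have h := AddChar.sum_mulShift (((n : ℤ) : ZMod p)) (ZMod.isPrimitive_stdAddChar p)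
  have e : (((n : ℤ) : ZMod p) = 0) ↔ p ∣ n := by
    push_cast
    exact ZMod.natCast_eq_zero_iff n p
  simp_rw [e, ZMod.card] at h
  simp_rw [mul_comm (((n : ℤ) : ZMod p))]
  rw [h]
  split_ifs <;> simp

lemma hasSum_div_nat {z : ℂ} (hz : 0 < z.im) :
    HasSum (fun n : ℕ => cf f (p * n) * cexp (2 * π * I * (n * z)))
      ((p : ℂ)⁻¹ * ∑ b : ZMod p, Fc f ((z + (b.val : ℤ)) / p)) := by
  have hp := pos_p p
  have hp' := ne_p p
  have h := (hasSum_sum (s := (Finset.univ : Finset (ZMod p)))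
    (fun b _ => hasSum_Fc f (im_div_nat hp (b.val : ℤ) hz))).mul_left ((p : ℂ)⁻¹)
  have e : ∀ n : ℕ, (p : ℂ)⁻¹ * ∑ b : ZMod p, cf f n *
      cexp (2 * π * I * (n * ((z + (b.val : ℤ)) / p))) =
      if p ∣ n then cf f n * cexp (2 * π * I * (n * (z / p))) else 0 := by
    intro n
    have e1 : ∀ b : ZMod p, cf f n * cexp (2 * π * I * (n * ((z + (b.val : ℤ)) / p))) =
      cf f n * cexp (2 * π * I * (n * (z / p))) * ZMod.stdAddChar (((n : ℤ) : ZMod p) * b) := by
      intro b
      have : (((n : ℤ) : ZMod p) * b) = (((n : ℤ) * (b.val : ℤ) : ℤ) : ZMod p) := by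
        push_cast
        rw [ZMod.natCast_zmod_val]
      rw [this, ZMod.stdAddChar_coe, mul_assoc (cf f n), ← Complex.exp_add]
      congr 2
      push_cast
      field_simp
    simp_rw [e1]
    rw [← Finset.mul_sum, sum_exp_p]
    split_ifs with hpn
    · field_simp
    · simp
  simp_rw [e] at h
  have hinj : Function.Injective (fun m : ℕ => p * m) := fun a b h => Nat.eq_of_mul_eq_mul_left hp h
  rw [← hinj.hasSum_iff] at h
  · have e : ((fun n : ℕ => if p ∣ n then cf f n * cexp (2 * π * I * (n * (z / p))) else 0)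
      ∘ (fun m : ℕ => p * m)) =
      fun m : ℕ => (cf f (p * m) * cexp (2 * π * I * (m * z))) := by
      funext m
      simp only [Function.comp_apply]
      rw [if_pos (Dvd.intro m rfl)]
      congr 2
      push_cast
      field_simp
    rw [e] at h
    exact h
  · intro x hx
    rw [if_neg]
    rintro ⟨m, rfl⟩
    exact hx ⟨m, rfl⟩

lemma cf_hecke (n : ℕ) : cf (hecke p f) n = hc p f n := by
  unfold cf
  refine (ModularFormClass.qExpansion_coeff_unique (f := hecke p f) (c := hc p f) one_pos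
    one_mem_strictPeriods_SL (fun τ => ?_) n).symm
  have h := (hasSum_mul_nat (p := p) f τ.im_pos).add (hasSum_div_nat (p := p) f τ.im_pos)
  have e : (fun m : ℕ => hc p f m • Function.Periodic.qParam 1 (τ : ℂ) ^ m) =
      fun n : ℕ => (if p ∣ n then (p : ℂ) ^ (k - 1) * cf f (n / p) else 0) *
        cexp (2 * π * I * (n * τ)) + cf f (p * n) * cexp (2 * π * I * (n * τ)) := by
    funext m
    unfold hc
    rw [Function.Periodic.qParam, ← Complex.exp_nat_mul, smul_eq_mul, ← add_mul,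
      add_comm (cf f (p * m))]
    congr 2
    push_cast
    ring
  rw [e]
  exact h

lemma cf_smul (c : ℂ) (n : ℕ) : cf (c • f) n = c * cf f n := by
  unfold cf
  have h := ModularForm.qExpansion_smul one_pos one_mem_strictPeriods_SL c f
  have e : ((c • f : CuspForm 𝒮ℒ k) : ℍ → ℂ) = c • (f : ℍ → ℂ) := rfl
  rw [e, h]
  simp

/-- the Hecke relations for `Δ` -/
theorem discriminant_hecke (p : ℕ) (hp : p.Prime) (n : ℕ) :
    cf CuspForm.discriminant (p * n) +
      (if p ∣ n then (p : ℂ) ^ 11 * cf CuspForm.discriminant (n / p) else 0) =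
      cf CuspForm.discriminant p * cf CuspForm.discriminant n := by
  have : Fact p.Prime := ⟨hp⟩
  obtain ⟨c, hcc⟩ := CuspForm.exists_smul_discriminant_of_weight_eq_twelve
    (hecke p CuspForm.discriminant)
  have h1 : cf CuspForm.discriminant 1 = 1 := ModularForm.discriminant_qExpansion_coeff_one
  have key : ∀ m, hc p CuspForm.discriminant m = c * cf CuspForm.discriminant m := by
    intro m
    rw [← cf_hecke, ← hcc, cf_smul]
  have hp1 := key 1
  unfold hc at hp1
  rw [h1, mul_one, mul_one, if_neg (by simpa using hp.one_lt.ne'), add_zero] at hp1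
  have := key n
  unfold hc at this
  rw [← hp1] at this
  simpa using this

end Pool.Agent.V1143.Holo
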