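import Pool.Agent.V1143.Holo.Basic
import Pool.Agent.V1143.Maass.Twist

/-!
# Twists of level-one cusp forms: entire continuation and the sign of the functional equation
-/

set_option autoImplicit false

open UpperHalfPlane hiding I
open Complex Filter Topology Set MeasureTheory Asymptotics ModularForm
open scoped Real MatrixGroups

namespace Pool.Agent.V1143.Holo

variable {k : ℤ} (f : CuspForm 𝒮ℒ k) {q : ℕ} [NeZero q]

lemma fv_continuousOn (b : ℤ) : ContinuousOn (fv f q b) (Ioi 0) := by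
  have hq : 0 < q := Nat.pos_of_ne_zero (NeZero.ne q)
  have h1 : DifferentiableOn ℂ ((f : ℍ → ℂ) ∘ ofComplex) {z | 0 < z.im} :=
    UpperHalfPlane.mdifferentiable_iff.mp (CuspFormClass.holo f)
  have h2 : ContinuousOn (fun t : ℝ => pt q b t) (Ioi 0) := by
    unfold pt; fun_prop
  exact h1.continuousOn.comp h2 (fun t ht => pt_im_pos hq b ht)

lemma fv_decay (b : ℤ) (r : ℝ) : fv f q b =O[atTop] (fun t : ℝ => t ^ r) := by
  have hq : 0 < q := Nat.pos_of_ne_zero (NeZero.ne q)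
  have hq' : (0:ℝ) < q := by exact_mod_cast hq
  have h1 := CuspFormClass.exp_decay_atImInfty (h := 1) f one_pos one_mem_strictPeriods_SL
  have h2 : Tendsto (fun t : ℝ => ofComplex (pt q b t)) atTop atImInfty := by
    rw [atImInfty, tendsto_comap_iff]
    have : Tendsto (fun t : ℝ => t / (q : ℝ)) atTop atTop := tendsto_id.atTop_div_const hq'
    refine this.congr' ?_
    filter_upwards [eventually_gt_atTop 0] with t ht
    rw [Function.comp_apply, ofComplex_apply_of_im_pos (pt_im_pos hq b ht)]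
    change t / q = (pt q b t).im
    rw [pt_im]
  have h3 := h1.comp_tendsto h2
  refine h3.trans ?_
  have hc : (0:ℝ) < 2 * π / q := by positivity
  refine (EventuallyEq.isBigO ?_).trans (isLittleO_exp_neg_mul_rpow_atTop hc r).isBigO
  filter_upwards [eventually_gt_atTop 0] with t ht
  rw [Function.comp_apply, ofComplex_apply_of_im_pos (pt_im_pos hq b ht)]
  change Real.exp (-2 * π * (pt q b t).im / 1) = _
  rw [pt_im]
  congr 1
  field_simp

variable (χ : DirichletCharacter ℂ q)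

lemma G_continuousOn : ContinuousOn (G f χ) (Ioi 0) := by
  unfold G
  exact continuousOn_finsetSum _ fun b _ => continuousOn_const.mul (fv_continuousOn (q := q) f _)

lemma G_decay (r : ℝ) : G f χ =O[atTop] (fun t : ℝ => t ^ r) := by
  unfold G
  exact (IsBigO.sum (fun (b : ZMod q) (_ : b ∈ Finset.univ) =>
    (fv_decay (q := q) f (b.val : ℤ) r).const_mul_left (χ b))).congr_left (fun t => by simp)

/-- the sign -/
noncomputable def sgn (k : ℤ) (χ : DirichletCharacter ℂ q) : ℂ := χ (-1) * (-I) ^ k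

lemma chi_neg_one_ne : χ (-1) ≠ 0 := by
  intro h
  have h1 : χ (-1) * χ (-1) = 1 := by rw [← map_mul]; simp
  rw [h] at h1; simp at h1

lemma sgn_ne : sgn k χ ≠ 0 :=
  mul_ne_zero (chi_neg_one_ne χ) (zpow_ne_zero _ (neg_ne_zero.mpr I_ne_zero))

lemma G_feq (hχ : χ⁻¹ = χ) {x : ℝ} (hx : 0 < x) :
    G f χ (1 / x) = (sgn k χ * ((x ^ (k : ℝ) : ℝ) : ℂ)) * G f χ x := by
  have h := G_fe f χ hχ (t := 1 / x) (by positivity)
  rw [h, one_div_one_div]
  have hx' : (x : ℂ) ≠ 0 := by exact_mod_cast hx.ne'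
  have : (-I / ((1 / x : ℝ) : ℂ)) ^ k = (-I) ^ k * ((x ^ (k : ℝ) : ℝ) : ℂ) := by
    rw [Real.rpow_intCast]
    push_cast
    rw [div_div_eq_mul_div, div_one, mul_zpow]
  rw [this]
  unfold sgn
  ring

/-- the pair -/
noncomputable def pair (hk : 0 < k) (hχ : χ⁻¹ = χ) : WeakFEPair ℂ where
  f := G f χ
  g := G f χ
  k := k
  ε := sgn k χ
  f₀ := 0
  g₀ := 0
  hf_int := (G_continuousOn f χ).locallyIntegrableOn measurableSet_Ioi
  hg_int := (G_continuousOn f χ).locallyIntegrableOn measurableSet_Ioi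
  hk := by exact_mod_cast hk
  hε := sgn_ne χ
  h_feq := fun x hx => G_feq f χ hχ hx
  hf_top := fun r => by simpa using G_decay f χ r
  hg_top := fun r => by simpa using G_decay f χ r

lemma pair_strong (hk : 0 < k) (hχ : χ⁻¹ = χ) : IsStrongFEPair (pair f χ hk hχ) where
  hf₀ := rfl
  hg₀ := rfl

/-- the completed function -/
noncomputable def Lam (s : ℂ) : ℂ := mellin (G f χ) s

lemma Lam_diff (hk : 0 < k) (hχ : χ⁻¹ = χ) : Differentiable ℂ (Lam f χ) := by
  have h := (pair_strong f χ hk hχ).differentiable_Λ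
  rwa [(pair_strong f χ hk hχ).Λ_eq] at h

lemma Lam_center (hχ : χ⁻¹ = χ) : Lam f χ (k / 2) = sgn k χ * Lam f χ (k / 2) := by
  unfold Lam
  have h1 := mellin_comp_inv (G f χ) (-(k : ℂ) / 2)
  rw [show -(-(k : ℂ) / 2) = k / 2 by ring] at h1
  have h2 := mellin_cpow_smul (G f χ) (-(k : ℂ) / 2) k
  rw [show -(k : ℂ) / 2 + k = k / 2 by ring] at h2
  have h3 : mellin (fun t => G f χ t⁻¹) (-(k:ℂ)/2)
      = mellin (fun t => sgn k χ • ((t : ℂ) ^ (k : ℂ) • G f χ t)) (-(k:ℂ)/2) := by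
    refine setIntegral_congr_fun measurableSet_Ioi fun t ht => ?_
    have ht0 : (0:ℝ) < t := ht
    have := G_feq f χ hχ ht0
    simp only
    rw [one_div] at this
    rw [this, smul_eq_mul, smul_eq_mul, smul_eq_mul, smul_eq_mul, ofReal_cpow ht0.le]
    push_cast
    ring
  rw [mellin_const_smul, h2, smul_eq_mul] at h3
  rw [← h3, h1]

/-- at the centre the completed function vanishes when the sign is `-1` -/
lemma Lam_zero (hχ : χ⁻¹ = χ) (hs : sgn k χ = -1) : Lam f χ (k / 2) = 0 := by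
  have h := Lam_center f χ hχ
  rw [hs] at h
  have : (2 : ℂ) * Lam f χ (k / 2) = 0 := by linear_combination h
  simpa using this

/-- the `n`-th coefficient of `f` -/
noncomputable def cf (n : ℕ) : ℂ := (qExpansion 1 f).coeff n

lemma cf_zero : cf f 0 = 0 :=
  CuspFormClass.qExpansion_coeff_zero f one_pos one_mem_strictPeriods_SL

lemma cf_isBigO : cf f =O[atTop] fun n : ℕ => (n : ℝ) ^ ((k : ℝ) / 2) := by
  have h := CuspFormClass.qExpansion_isBigO f
  rw [Subgroup.strictWidthInfty_SL2Z] at h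
  exact h

lemma hasSum_fv (b : ℤ) {t : ℝ} (ht : 0 < t) :
    HasSum (fun n : ℕ => cf f n * ZMod.stdAddChar (((n : ℤ) : ZMod q) * (b : ZMod q)) *
      Real.exp (-π * (2 * n / q) * t)) (fv f q b t) := by
  have hq : 0 < q := Nat.pos_of_ne_zero (NeZero.ne q)
  have hq' : (q : ℂ) ≠ 0 := by exact_mod_cast hq.ne'
  have h := ModularForm.hasSum_qExpansion f one_pos one_mem_strictPeriods_SL
    (⟨pt q b t, pt_im_pos hq b ht⟩ : ℍ)
  have e : ∀ n : ℕ, cf f n * ZMod.stdAddChar (((n : ℤ) : ZMod q) * (b : ZMod q)) *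
      Real.exp (-π * (2 * n / q) * t) = (qExpansion 1 f).coeff n *
        Function.Periodic.qParam 1 (pt q b t) ^ n := by
    intro n
    rw [← Int.cast_mul, ZMod.stdAddChar_coe, Function.Periodic.qParam, ← Complex.exp_nat_mul,
      mul_assoc, Complex.ofReal_exp, ← Complex.exp_add]
    unfold cf pt
    congr 2
    push_cast
    field_simp
    ring_nf
    rw [I_sq]
    ring
  unfold fv
  rw [ofComplex_apply_of_im_pos (pt_im_pos hq b ht)]
  simp_rw [e]
  exact h

lemma hasSum_G (hp : χ.IsPrimitive) (hχ : χ⁻¹ = χ) {t : ℝ} (ht : 0 < t) :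
    HasSum (fun n : ℕ => (cf f n * χ (n : ZMod q) * gaussSum χ ZMod.stdAddChar) *
      Real.exp (-π * (2 * n / q) * t)) (G f χ t) := by
  have h := hasSum_sum (s := (Finset.univ : Finset (ZMod q)))
    (f := fun b n => χ b * (cf f n * ZMod.stdAddChar (((n : ℤ) : ZMod q) *
      ((b.val : ℤ) : ZMod q)) * Real.exp (-π * (2 * n / q) * t)))
    (a := fun b => χ b * fv f q (b.val : ℤ) t)
    (fun b _ => (hasSum_fv (q := q) f (b.val : ℤ) ht).mul_left (χ b))
  have e : ∀ n : ℕ, ∑ b : ZMod q, χ b * (cf f n * ZMod.stdAddChar (((n : ℤ) : ZMod q) *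
      ((b.val : ℤ) : ZMod q)) * Real.exp (-π * (2 * n / q) * t))
      = (cf f n * χ (n : ZMod q) * gaussSum χ ZMod.stdAddChar) *
      Real.exp (-π * (2 * n / q) * t) := by
    intro n
    have h2 := gaussSum_mulShift_of_isPrimitive (e := ZMod.stdAddChar) hp (n : ZMod q)
    rw [hχ] at h2
    rw [mul_assoc (cf f n), ← h2]
    unfold gaussSum
    rw [Finset.mul_sum, Finset.sum_mul]
    refine Finset.sum_congr rfl fun b _ => ?_
    rw [AddChar.mulShift_apply]
    push_cast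
    rw [ZMod.natCast_zmod_val]
    ring
  simp_rw [e] at h
  exact h

lemma hasSum_Lam (hp : χ.IsPrimitive) (hχ : χ⁻¹ = χ) (hk : 0 < k) {s : ℂ}
    (hs : (k : ℝ) / 2 + 1 < s.re) :
    HasSum (fun n : ℕ => (π : ℂ) ^ (-s) * Gamma s *
      (cf f n * χ (n : ZMod q) * gaussSum χ ZMod.stdAddChar) / ((2 * n / q : ℝ) : ℂ) ^ s)
      (Lam f χ s) := by
  have hk' : (0:ℝ) < k := by exact_mod_cast hk
  have hq : 0 < q := Nat.pos_of_ne_zero (NeZero.ne q)
  have hq' : (0:ℝ) < q := by exact_mod_cast hq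
  refine hasSum_mellin_pi_mul₀ (fun n => by positivity) (by linarith) ?_ ?_
  · intro t ht
    have h := hasSum_G f χ hp hχ (t := t) ht
    have e : ∀ n : ℕ, (if (2 * n / q : ℝ) = 0 then (0 : ℂ) else
        (cf f n * χ (n : ZMod q) * gaussSum χ ZMod.stdAddChar) *
        Real.exp (-π * (2 * n / q) * t)) = (cf f n * χ (n : ZMod q) *
        gaussSum χ ZMod.stdAddChar) * Real.exp (-π * (2 * n / q) * t) := by
      intro n
      rcases Nat.eq_zero_or_pos n with h0 | h0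
      · subst h0; simp [cf_zero]
      · rw [if_neg]
        have : (0:ℝ) < n := by exact_mod_cast h0
        positivity
    simp_rw [e]
    exact h
  · simp_rw [mul_comm (2 : ℝ), mul_div_assoc,
      Real.mul_rpow (Nat.cast_nonneg _) (show (0:ℝ) ≤ 2 / q by positivity), ← div_div]
    apply Summable.div_const
    apply summable_of_isBigO_nat (Real.summable_nat_rpow.mpr <|
      show (k:ℝ) / 2 - s.re < -1 by linarith)
    simp only [Real.rpow_sub' (Nat.cast_nonneg _) (show (k:ℝ) / 2 - s.re ≠ 0 by linarith)]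
    apply IsBigO.mul _ (isBigO_refl _ _)
    refine IsBigO.trans ?_ (cf_isBigO f)
    refine IsBigO.of_bound ‖gaussSum χ ZMod.stdAddChar‖ (Eventually.of_forall fun n => ?_)
    rw [norm_norm, norm_mul, norm_mul]
    have h1 := DirichletCharacter.norm_le_one χ (n : ZMod q)
    have h2 : ‖cf f n‖ * ‖χ (n : ZMod q)‖ ≤ ‖cf f n‖ :=
      mul_le_of_le_one_right (norm_nonneg _) h1
    nlinarith [norm_nonneg (gaussSum χ ZMod.stdAddChar)]

/-- the analytically normalised twisted L-function -/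
noncomputable def Ltw (s : ℂ) : ℂ :=
  Lam f χ (s + (k - 1) / 2) * ((gaussSum χ ZMod.stdAddChar)⁻¹ * (2 * π / q : ℂ) ^ (s + (k - 1) / 2)
    * (Gamma (s + (k - 1) / 2))⁻¹)

lemma Ltw_diff (hk : 0 < k) (hχ : χ⁻¹ = χ) : Differentiable ℂ (Ltw f χ) := by
  have hq : (q : ℂ) ≠ 0 := by exact_mod_cast NeZero.ne q
  have hne : (2 * π / q : ℂ) ≠ 0 := div_ne_zero (by simp [Real.pi_ne_zero]) hq
  have h1 : Differentiable ℂ (fun s : ℂ => s + ((k : ℂ) - 1) / 2) := by fun_prop
  have h2 := (Lam_diff f χ hk hχ).comp h1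
  have h3 : Differentiable ℂ (fun s : ℂ => (2 * π / q : ℂ) ^ (s + ((k : ℂ) - 1) / 2)) :=
    h1.const_cpow (Or.inl hne)
  have h4 := Complex.differentiable_one_div_Gamma.comp h1
  unfold Ltw
  exact h2.mul ((h3.const_mul _).mul h4)

lemma Ltw_center (hχ : χ⁻¹ = χ) (hs : sgn k χ = -1) : Ltw f χ (1 / 2) = 0 := by
  unfold Ltw
  rw [show (1 / 2 : ℂ) + (k - 1) / 2 = k / 2 by ring, Lam_zero f χ hχ hs, zero_mul]

/-- normalised coefficients -/
noncomputable def lam (n : ℕ) : ℂ := cf f n / (n : ℂ) ^ (((k : ℂ) - 1) / 2)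

lemma Ltw_term (hp : χ.IsPrimitive) {s w : ℂ} (hw : w = s + ((k : ℂ) - 1) / 2)
    (hG : Gamma w ≠ 0) (n : ℕ) :
    (π : ℂ) ^ (-w) * Gamma w *
      (cf f n * χ (n : ZMod q) * gaussSum χ ZMod.stdAddChar) / ((2 * n / q : ℝ) : ℂ) ^ w *
      ((gaussSum χ ZMod.stdAddChar)⁻¹ * (2 * π / q : ℂ) ^ w * (Gamma w)⁻¹) =
      LSeries.term (fun n : ℕ => χ (n : ZMod q) * lam f n) s n := by
  have hq : 0 < q := Nat.pos_of_ne_zero (NeZero.ne q)
  have hq' : (q : ℂ) ≠ 0 := by exact_mod_cast NeZero.ne q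
  have hg : gaussSum χ ZMod.stdAddChar ≠ 0 := Pool.Agent.V1143.Maass.gauss_ne_zero hp
  rcases Nat.eq_zero_or_pos n with h0 | h0
  · subst h0; simp [cf_zero]
  · have hn : (n : ℂ) ≠ 0 := by exact_mod_cast h0.ne'
    rw [LSeries.term_of_ne_zero h0.ne']
    unfold lam
    have hpi : (π : ℂ) ≠ 0 := by exact_mod_cast Real.pi_ne_zero
    have e1 : ((2 * n / q : ℝ) : ℂ) ^ w = (2 / q : ℂ) ^ w * (n : ℂ) ^ w := by
      have : ((2 * n / q : ℝ) : ℂ) = ((2 / q : ℝ) : ℂ) * ((n : ℝ) : ℂ) := by push_cast; ring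
      rw [this, mul_cpow_ofReal_nonneg (by positivity) (by positivity)]
      push_cast; rfl
    have e2 : (2 * π / q : ℂ) ^ w = (2 / q : ℂ) ^ w * (π : ℂ) ^ w := by
      have : (2 * π / q : ℂ) = ((2 / q : ℝ) : ℂ) * (π : ℂ) := by push_cast; ring
      rw [this, mul_cpow_ofReal_nonneg (by positivity) (by positivity)]
      push_cast; rfl
    have e3 : (n : ℂ) ^ w = (n : ℂ) ^ s * (n : ℂ) ^ (((k : ℂ) - 1) / 2) := by
      rw [hw, cpow_add _ _ hn]
    have e4 : (π : ℂ) ^ (-w) = ((π : ℂ) ^ w)⁻¹ := cpow_neg _ _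
    have n1 : (2 / q : ℂ) ^ w ≠ 0 := by
      rw [Ne, cpow_eq_zero_iff, not_and_or]
      left; exact div_ne_zero two_ne_zero hq'
    have n2 : (π : ℂ) ^ w ≠ 0 := by
      rw [Ne, cpow_eq_zero_iff, not_and_or]
      left; exact hpi
    have n3 : (n : ℂ) ^ s ≠ 0 := by
      rw [Ne, cpow_eq_zero_iff, not_and_or]
      left; exact hn
    have n4 : (n : ℂ) ^ (((k : ℂ) - 1) / 2) ≠ 0 := by
      rw [Ne, cpow_eq_zero_iff, not_and_or]
      left; exact hn
    rw [e1, e2, e3, e4]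
    field_simp

lemma Ltw_series (hk : 0 < k) (hp : χ.IsPrimitive) (hχ : χ⁻¹ = χ) {s : ℂ} (hs : 3 / 2 < s.re) :
    LSeriesHasSum (fun n : ℕ => χ (n : ZMod q) * lam f n) s (Ltw f χ s) := by
  have hk' : (0:ℝ) < k := by exact_mod_cast hk
  obtain ⟨w, hw⟩ : ∃ w : ℂ, w = s + ((k : ℂ) - 1) / 2 := ⟨_, rfl⟩
  have hwre : w.re = s.re + ((k : ℝ) - 1) / 2 := by
    rw [hw, add_re]
    congr 1
    have : (((k : ℂ) - 1) / 2) = ((((k : ℝ) - 1) / 2 : ℝ) : ℂ) := by push_cast; ring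
    rw [this, ofReal_re]
  have h1 := hasSum_Lam f χ hp hχ hk (s := w) (by rw [hwre]; linarith)
  have hG : Gamma w ≠ 0 := Gamma_ne_zero_of_re_pos (by rw [hwre]; linarith)
  have h2 := h1.mul_right ((gaussSum χ ZMod.stdAddChar)⁻¹ * (2 * π / q : ℂ) ^ w * (Gamma w)⁻¹)
  unfold LSeriesHasSum
  have key : (fun n : ℕ => (π : ℂ) ^ (-w) * Gamma w *
      (cf f n * χ (n : ZMod q) * gaussSum χ ZMod.stdAddChar) / ((2 * n / q : ℝ) : ℂ) ^ w *
      ((gaussSum χ ZMod.stdAddChar)⁻¹ * (2 * π / q : ℂ) ^ w * (Gamma w)⁻¹)) =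
      LSeries.term (fun n : ℕ => χ (n : ZMod q) * lam f n) s := by
    funext n
    exact Ltw_term f χ hp hw hG n
  rw [← key]
  unfold Ltw
  rw [← hw]
  exact h2

end Pool.Agent.V1143.Holo
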